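import Mathlib
import Pool.Agent.SZT.StmtsA

/-!
# Squad SZT, row CMB (helper27): the sum over the two points.
-/

set_option autoImplicit false

namespace Pool.Agent.SZT.H27

open Pool.Agent.SZT Polynomial
open Pool.Agent.MNT (QU)

theorem logmax_le {c₀ x y m : ℝ} (hx : 0 < x) (hm : 0 < m) (h1 : x ≤ Real.exp c₀ * m)
    (h2 : y ≤ Real.exp c₀ * m) : Real.log (max x y) ≤ c₀ + Real.log m := by
  have h := Real.log_le_log (lt_max_of_lt_left hx) (max_le h1 h2)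
  rwa [Real.log_mul (Real.exp_pos _).ne' hm.ne', Real.log_exp] at h

theorem cmb_real {c₀ e D ρ r0 r1 y0 y1 A0 A1 S0 S1 : ℝ} (hc : 0 ≤ c₀) (hρ : 0 < ρ)
    (hr0 : 0 < r0) (hr1 : 0 < r1) (hy0 : y0 ≤ Real.exp c₀ * max r1 ρ)
    (hy1 : y1 ≤ Real.exp c₀ * max r0 ρ) (hS0 : 1 / 2 * D - 6 * Real.log ρ ≤ S0)
    (hS1 : 1 / 2 * D - 6 * Real.log ρ ≤ S1) (hD : D ≤ 20 * Real.log ρ)
    (a0 : r0 ≤ Real.exp c₀ * ρ →
      1 / 2 * S0 - 1 / 2 * Real.log (max (Real.exp c₀ * ρ) y0) - 3 * c₀ - e / 2 ≤ A0)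
    (b0 : Real.exp c₀ * ρ < r0 →
      2 * Real.log r0 - 1 / 2 * Real.log (max r0 y0) - c₀ - e / 2 ≤ A0)
    (a1 : r1 ≤ Real.exp c₀ * ρ →
      1 / 2 * S1 - 1 / 2 * Real.log (max (Real.exp c₀ * ρ) y1) - 3 * c₀ - e / 2 ≤ A1)
    (b1 : Real.exp c₀ * ρ < r1 →
      2 * Real.log r1 - 1 / 2 * Real.log (max r1 y1) - c₀ - e / 2 ≤ A1) :
    1 / 2 * D - 7 * Real.log ρ - 8 * c₀ - e ≤ A0 + A1 := by
  have hE : 1 ≤ Real.exp c₀ := Real.one_le_exp hc
  have hE0 : 0 < Real.exp c₀ := Real.exp_pos _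
  have hR : 0 < Real.exp c₀ * ρ := mul_pos hE0 hρ
  have hρR : ρ ≤ Real.exp c₀ * ρ := le_mul_of_one_le_left hρ.le hE
  have hlR : Real.log (Real.exp c₀ * ρ) = c₀ + Real.log ρ := by
    rw [Real.log_mul hE0.ne' hρ.ne', Real.log_exp]
  have hmul : ∀ x : ℝ, 0 ≤ x → x ≤ Real.exp c₀ * x := fun x hx => le_mul_of_one_le_left hx hE
  have hml : ∀ x z : ℝ, x ≤ z → Real.exp c₀ * x ≤ Real.exp c₀ * z :=
    fun x z h => mul_le_mul_of_nonneg_left h hE0.le
  rcases le_or_gt r0 (Real.exp c₀ * ρ) with h0 | h0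
  · rcases le_or_gt r1 (Real.exp c₀ * ρ) with h1 | h1
    · have e0 : Real.log (max (Real.exp c₀ * ρ) y0) ≤ c₀ + Real.log (Real.exp c₀ * ρ) :=
        logmax_le hR hR (hmul _ hR.le) (hy0.trans (hml _ _ (max_le h1 hρR)))
      have e1 : Real.log (max (Real.exp c₀ * ρ) y1) ≤ c₀ + Real.log (Real.exp c₀ * ρ) :=
        logmax_le hR hR (hmul _ hR.le) (hy1.trans (hml _ _ (max_le h0 hρR)))
      rw [hlR] at e0 e1
      have := a0 h0
      have := a1 h1
      linarith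
    · have e0 : Real.log (max (Real.exp c₀ * ρ) y0) ≤ c₀ + Real.log r1 :=
        logmax_le hR hr1 (h1.le.trans (hmul _ hr1.le))
          (hy0.trans (hml _ _ (max_le le_rfl (hρR.trans h1.le))))
      have e1 : Real.log (max r1 y1) ≤ c₀ + Real.log r1 :=
        logmax_le hr1 hr1 (hmul _ hr1.le)
          (hy1.trans (hml _ _ ((max_le h0 hρR).trans h1.le)))
      have e2 : c₀ + Real.log ρ ≤ Real.log r1 := by
        rw [← hlR]
        exact Real.log_le_log hR h1.le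
      have := a0 h0
      have := b1 h1
      linarith
  · rcases le_or_gt r1 (Real.exp c₀ * ρ) with h1 | h1
    · have e0 : Real.log (max r0 y0) ≤ c₀ + Real.log r0 :=
        logmax_le hr0 hr0 (hmul _ hr0.le)
          (hy0.trans (hml _ _ ((max_le h1 hρR).trans h0.le)))
      have e1 : Real.log (max (Real.exp c₀ * ρ) y1) ≤ c₀ + Real.log r0 :=
        logmax_le hR hr0 (h0.le.trans (hmul _ hr0.le))
          (hy1.trans (hml _ _ (max_le le_rfl (hρR.trans h0.le))))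
      have e2 : c₀ + Real.log ρ ≤ Real.log r0 := by
        rw [← hlR]
        exact Real.log_le_log hR h0.le
      have := b0 h0
      have := a1 h1
      linarith
    · have hm : 0 < max r0 r1 := lt_max_of_lt_left hr0
      have hρ0 : ρ ≤ r0 := hρR.trans h0.le
      have hρ1 : ρ ≤ r1 := hρR.trans h1.le
      have e0 : Real.log (max r0 y0) ≤ c₀ + Real.log (max r0 r1) :=
        logmax_le hr0 hm ((le_max_left _ _).trans (hmul _ hm.le))
          (hy0.trans (hml _ _ (max_le (le_max_right _ _) (hρ1.trans (le_max_right _ _)))))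
      have e1 : Real.log (max r1 y1) ≤ c₀ + Real.log (max r0 r1) :=
        logmax_le hr1 hm ((le_max_right _ _).trans (hmul _ hm.le))
          (hy1.trans (hml _ _ (max_le (le_max_left _ _) (hρ0.trans (le_max_left _ _)))))
      have l0 : Real.log ρ ≤ Real.log r0 := Real.log_le_log hρ hρ0
      have l1 : Real.log ρ ≤ Real.log r1 := Real.log_le_log hρ hρ1
      have := b0 h0
      have := b1 h1
      rcases le_total r0 r1 with h | h
      · rw [max_eq_right h] at e0 e1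
        linarith
      · rw [max_eq_left h] at e0 e1
        linarith

theorem cmb (hA : PtaStmt) (hB : PtbStmt) (hS : SmsStmt) : CmbStmt := by
  intro E _ v c₀ e hQ he θ a N U W hθ hU hSol hG hne ρ hρ hd
  obtain ⟨hc, hq⟩ := hQ
  obtain ⟨hs1, hs2⟩ := hS E v θ ρ hθ hd
  obtain ⟨i0, hi0⟩ := Finite.exists_min (fun k => v (a 0 - θ k))
  obtain ⟨i1, hi1⟩ := Finite.exists_min (fun k => v (a 1 - θ k))
  have hr0 : 0 < v (a 0 - θ i0) := v.pos (sub_ne_zero.2 (hne 0 i0))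
  have hr1 : 0 < v (a 1 - θ i1) := v.pos (sub_ne_zero.2 (hne 1 i1))
  have hy0 : v (a 1 - θ i0) ≤ Real.exp c₀ * max (v (a 1 - θ i1)) ρ := by
    have e1 : a 1 - θ i0 = (a 1 - θ i1) + (θ i1 - θ i0) := by ring
    rw [e1]
    exact (hq _ _).trans (mul_le_mul_of_nonneg_left (max_le_max le_rfl (hd _ _))
      (Real.exp_pos _).le)
  have hy1 : v (a 0 - θ i1) ≤ Real.exp c₀ * max (v (a 0 - θ i0)) ρ := by
    have e1 : a 0 - θ i1 = (a 0 - θ i0) + (θ i0 - θ i1) := by ring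
    rw [e1]
    exact (hq _ _).trans (mul_le_mul_of_nonneg_left (max_le_max le_rfl (hd _ _))
      (Real.exp_pos _).le)
  have e10 : (1 - 0 : Fin 2) = 1 := rfl
  have e11 : (1 - 1 : Fin 2) = 0 := rfl
  rw [Fin.sum_univ_two]
  refine cmb_real hc hρ hr0 hr1 hy0 hy1 (hs1 i0) (hs1 i1) hs2 ?_ ?_ ?_ ?_
  · intro h
    have := hA E v c₀ e ⟨hc, hq⟩ he θ a N U W hθ hU hSol hG ρ hd 0 i0 (hne 0) hi0 h
    rwa [e10] at this
  · intro h
    have := hB E v c₀ e ⟨hc, hq⟩ he θ a N U W hθ hU hSol hG ρ hd 0 i0 (hne 0) hi0 h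
    rwa [e10] at this
  · intro h
    have := hA E v c₀ e ⟨hc, hq⟩ he θ a N U W hθ hU hSol hG ρ hd 1 i1 (hne 1) hi1 h
    rwa [e11] at this
  · intro h
    have := hB E v c₀ e ⟨hc, hq⟩ he θ a N U W hθ hU hSol hG ρ hd 1 i1 (hne 1) hi1 h
    rwa [e11] at this

end Pool.Agent.SZT.H27
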