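import Mathlib
import Pool.Agent.SZT.StmtsC

/-!
# Squad SZT, row SID (helper27): Sidon sets modulo `N`.
-/

set_option autoImplicit false

namespace Pool.Agent.SZT.H27

open Pool.Agent.SZT

theorem sid : SidStatement := by
  classical
  intro N S hN hS h
  set P : Finset (ℕ × ℕ) := (S ×ˢ S).filter (fun p => ¬ N ∣ p.1 + p.2) with hP
  set Q : Finset (ℕ × ℕ) := (S ×ˢ S).filter (fun p => N ∣ p.1 + p.2) with hQ
  have hsum : Q.card + P.card = S.card * S.card := by
    rw [hP, hQ, Finset.card_filter_add_card_filter_not, Finset.card_product]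
  have hQc : Q.card ≤ S.card := by
    refine Finset.card_le_card_of_injOn Prod.fst ?_ ?_
    · intro p hp
      exact (Finset.mem_product.1 (Finset.mem_filter.1 hp).1).1
    · intro p hp q hq hpq
      have hp' := Finset.mem_filter.1 (Finset.mem_coe.1 hp)
      have hq' := Finset.mem_filter.1 (Finset.mem_coe.1 hq)
      have h1 : p.1 + p.2 ≡ p.1 + q.2 [MOD N] := by
        have a1 : p.1 + p.2 ≡ 0 [MOD N] := (Nat.modEq_zero_iff_dvd).2 hp'.2
        have a2 : q.1 + q.2 ≡ 0 [MOD N] := (Nat.modEq_zero_iff_dvd).2 hq'.2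
        have hpq' : p.1 = q.1 := hpq
        rw [← hpq'] at a2
        exact a1.trans a2.symm
      have h2 : p.2 ≡ q.2 [MOD N] := Nat.ModEq.add_left_cancel' _ h1
      have h3 : p.2 = q.2 := Nat.ModEq.eq_of_lt_of_lt h2
        (hS _ (Finset.mem_product.1 hp'.1).2) (hS _ (Finset.mem_product.1 hq'.1).2)
      exact Prod.ext hpq h3
  have hPc : P.card ≤ 2 * (N - 1) := by
    have h1 := Finset.card_le_mul_card_image_of_maps_to (s := P) (t := Finset.Ico 1 N)
      (f := fun p : ℕ × ℕ => (p.1 + p.2) % N) (by
        intro p hp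
        have hp' := (Finset.mem_filter.1 hp).2
        rw [Finset.mem_Ico]
        refine ⟨Nat.one_le_iff_ne_zero.2 fun h0 => hp' (Nat.dvd_of_mod_eq_zero h0),
          Nat.mod_lt _ hN⟩) 2 (by
        intro b _
        rcases (Finset.filter (fun p : ℕ × ℕ => (p.1 + p.2) % N = b) P).eq_empty_or_nonempty
          with he | ⟨p, hp⟩
        · rw [he]
          simp
        · have hp' := Finset.mem_filter.1 hp
          have hp'' := Finset.mem_filter.1 hp'.1
          have hp3 := Finset.mem_product.1 hp''.1
          have hsub : Finset.filter (fun p : ℕ × ℕ => (p.1 + p.2) % N = b) P ⊆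
              {p, (p.2, p.1)} := by
            intro q hq
            have hq' := Finset.mem_filter.1 hq
            have hq'' := Finset.mem_filter.1 hq'.1
            have hq3 := Finset.mem_product.1 hq''.1
            rcases h q.1 hq3.1 q.2 hq3.2 p.1 hp3.1 p.2 hp3.2 hq''.2
              (hq'.2.trans hp'.2.symm) with ⟨e1, e2⟩ | ⟨e1, e2⟩
            · rw [Finset.mem_insert]
              exact Or.inl (Prod.ext e1 e2)
            · rw [Finset.mem_insert, Finset.mem_singleton]
              exact Or.inr (Prod.ext e1 e2)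
          exact (Finset.card_le_card hsub).trans (Finset.card_le_two))
    rwa [Nat.card_Ico] at h1
  by_contra hcon
  rw [not_le] at hcon
  have hs := Nat.lt_succ_sqrt (2 * N)
  set s := Nat.sqrt (2 * N) with hs'
  obtain ⟨t, ht⟩ : ∃ t, S.card = t + s + 2 := ⟨S.card - s - 2, by omega⟩
  rw [ht] at hsum hQc
  have hs2 : 2 * N < (s + 1) * (s + 1) := hs
  have h5 : (t + s + 2) * (t + s + 2) ≤ (t + s + 2) + 2 * (N - 1) := by omega
  nlinarith [Nat.zero_le t, Nat.zero_le s, Nat.sub_le N 1]

end Pool.Agent.SZT.H27
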